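import Pool.Agent.MP_8be872_ag.H63.SpecE
import Pool.Agent.MP_8be872_ag.H63.ApiC

/-! The sum over the cells. -/

namespace Pool.Agent.MP_8be872_ag.H23

open Finset H38 H56 H63 Filter

namespace NumA

variable {Q : Quiv} {w v : Fin Q.n → ℕ}

theorem fix_sum {d : Fin Q.n → ℕ → ℤ} {F : Pol (Arr Q) (Bas Q v) (Bas Q w)} {φ : G}
    (h : FixOK Q w v d F φ) (h0 : co 0 φ = 0) {U : H38.K} (hU : U ∈ LF) (g : G) :
    ∀ᶠ k : ℕ in atTop, ∑ᶠ β : G, U.coeff β * chi Q w v d F φ (g - β) =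
      (U * fixB Q w v d).coeff (g + k • φ) := by
  obtain ⟨C, hC⟩ := h
  have hz : ∀ γ, co 0 γ ≠ 0 → (chi Q w v d F φ γ : ℚ) = 0 := fun γ hγ => by
    obtain ⟨k, hk⟩ := (ev_deep (Q := Q) (v := v) C γ).exists
    rw [(hC γ k hk).2, fixB_coeff]
    simpa [h0] using hγ
  have hfin := hU (co 0 g)
  refine ((eventually_all_finite hfin).mpr fun β _ => ev_deep (Q := Q) (v := v) C (g - β)).mono
    fun k hk => ?_
  rw [coeff_mul_finsum]
  refine finsum_congr fun β => ?_
  by_cases h1 : U.coeff β = 0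
  · simp [h1]
  by_cases h2 : co 0 β ≤ co 0 g
  · rw [(hC _ k (hk β ⟨h1, h2⟩)).2, add_sub_right_comm]
  · rw [hz, fixB_coeff]
    · simp only [map_sub, map_add, map_nsmul, h0, smul_zero]
      omega
    · simp only [map_sub]
      omega

theorem common {ι : Type} (s : Finset ι) (p : G → Prop) (a b : ι → G → ℚ)
    (h : ∀ d ∈ s, ∃ L : List G, (∀ β ∈ L, p β) ∧ shl L (a d) = shl L (b d)) :
    ∃ L : List G, (∀ β ∈ L, p β) ∧ ∀ d ∈ s, shl L (a d) = shl L (b d) := by
  classical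
  induction s using Finset.induction_on with
  | empty => exact ⟨[], by simp, by simp⟩
  | insert i s _ ih =>
    obtain ⟨L, h1, h2⟩ := h i (mem_insert_self _ _)
    obtain ⟨L', h3, h4⟩ := ih fun d hd => h d (mem_insert_of_mem hd)
    refine ⟨L ++ L', fun β hβ => (List.mem_append.1 hβ).elim (h1 β) (h3 β), fun d hd => ?_⟩
    rw [shl_append, shl_append]
    rcases mem_insert.1 hd with rfl | hd
    · rw [shl_comm, h2, shl_comm]
    · rw [h4 d hd]

theorem shl_lin (L : List G) (c : ℚ) (u : G) (a : G → ℚ) (g : G) :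
    shl L (fun γ => c * a (γ + u)) g = c * shl L a (g + u) := by
  induction L generalizing g with
  | nil => rfl
  | cons β L ih => simp only [shl_cons, ih, mul_sub, add_sub_right_comm g u β]

variable (Q v) in
/-- Weights whose gauge part involves only the Chern roots of `V`. -/
def XS : AddSubgroup G where
  carrier := {g | ∃ n : Bas Q v → ℤ, g - ∑ a, n a • xV a.1 a.2 ∈ Sall}
  zero_mem' := ⟨0, by simp⟩
  add_mem' := by
    rintro x y ⟨n, hn⟩ ⟨m, hm⟩
    refine ⟨n + m, ?_⟩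
    have := Sall.add_mem hn hm
    simp only [Pi.add_apply, add_smul, sum_add_distrib]
    rwa [sub_add_sub_comm] at this
  neg_mem' := by
    rintro x ⟨n, hn⟩
    refine ⟨-n, ?_⟩
    have := Sall.neg_mem hn
    simp only [Pi.neg_apply, neg_smul, sum_neg_distrib]
    rwa [neg_sub'] at this

theorem xs_free {g : G} (h : g ∈ Sall) : g ∈ XS Q v := ⟨0, by simpa using h⟩

theorem xs_xV (a : Bas Q v) : xV a.1 a.2 ∈ XS Q v := by
  classical
  refine ⟨Pi.single a 1, ?_⟩
  rw [sum_eq_single a] <;> simp +contextual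

theorem s_qq : qq ∈ Sall := fun _ _ => co_ix_qq _ _
theorem s_tau : tau ∈ Sall := fun _ _ => co_ix_tau _ _
theorem s_hb : H38.hb ∈ Sall := fun _ _ => co_ix_hb _ _

theorem s_arr (ε : Arr Q) : arrWt Q ε ∈ Sall := by
  have h : ∀ e, tE e ∈ Sall := fun e _ _ => co_ix_tE _ _ _
  rcases ε with ⟨_ | e, _ | _⟩
  · exact Sall.neg_mem s_tau
  · exact Sall.neg_mem s_tau
  · exact Sall.sub_mem (Sall.neg_mem (h _)) s_tau
  · exact Sall.sub_mem (h _) s_tau

variable {D : Fin Q.n → ℕ} {σ : Bas Q v ≃ Bas Q v} {d : Bas Q v → ℕ}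
  {lab : Bas Q D → Bas Q v × ℕ}

theorem xs_xs (p : Nb Q w v D) : xs σ d lab p ∈ XS Q v := by
  refine add_mem ?_ (xs_free (Sall.zsmul_mem s_qq _))
  rcases p with τ | a | b
  · exact xs_xV _
  · exact xs_xV _
  · exact xs_free fun _ _ => co_ix_uF _ _ _ _

theorem co0_xs (p : Nb Q w v D) : co 0 (xs σ d lab p) = lv d lab p := by
  rcases p with τ | b | b <;> simp [xs, xV, uF, H38.qq, co_gen]

theorem movL_ok (s : Bool) : ∀ β ∈ movL w σ d lab s,
    co 0 β ≠ 0 ∧ ∃ n : Bas Q v → ℤ, free (β - ∑ a, n a • xV a.1 a.2) := by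
  classical
  intro β hβ
  obtain ⟨g, hg, rfl⟩ := List.mem_map.1 hβ
  obtain ⟨hA, hl⟩ := (mem_filter.1 (mem_toList.1 hg)).2.1
  constructor
  · rcases g with (⟨ε | _ | _, p, q⟩ | j) | (⟨ε | _ | _, p, q⟩ | j)
    all_goals first
      | exact hA.elim
      | simpa [H63.wt, ofM, lvG, lvk, co0_xs, co0_arrWt, H38.qq, H38.hb, tau, co_gen] using hl
  · change _ ∈ XS Q v
    rcases g with (⟨ε | _ | _, p, q⟩ | j) | (⟨ε | _ | _, p, q⟩ | j)
    all_goals first
      | exact hA.elim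
      | refine sub_mem (sub_mem (xs_xs q) (xs_xs p)) (xs_free ?_)
    · exact s_arr ε
    · exact Sall.sub_mem (Sall.neg_mem s_hb) s_qq
    · exact Sall.neg_mem s_qq
    · exact Sall.sub_mem (s_arr ε) s_qq
    · exact Sall.neg_mem s_hb
    · exact Sall.zero_mem

theorem movL_prod (s : Bool) :
    ((movL w σ d lab s).map fun β => 1 - H38.mon β).prod = movK (w := w) σ d lab s := by
  rw [movL, List.map_map, prod_map_toList]
  rfl

theorem flagK_LF : flagK σ d ∈ LF := by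
  refine prod_mem fun a _ => prod_mem fun b _ => ?_
  split_ifs with h
  · refine geo_LF ?_
    have := h.2.2
    simp only [map_sub, map_add, map_zsmul, H38.co0_xV, H38.qq, co_gen]
    simp only [if_true, smul_eq_mul, mul_one, zero_add]
    omega
  · exact one_mem _

theorem res_eq {φ : G} (hφ : φ + allX Q v ∈ Sall) {γ : G} (hγ : γ ∈ Sall) (k : ℕ) (f : H38.K) :
    (res Sall (H38.mon (k • allX Q v) * f)).coeff (γ + k • (φ + allX Q v)) =
      f.coeff (γ + k • φ) := by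
  rw [res_coeff, if_pos (show _ ∈ (Sall : Set G) from Sall.add_mem hγ (Sall.nsmul_mem hφ k)),
    coeff_mon_mul, nsmul_add, ← add_assoc, add_sub_cancel_right]

end NumA

open NumA

theorem num_stmt (hgeo : GeoStmt) (hfix : FixAllStmt) (hch : CharIdStmt) (hsym : SymFStmt)
    (hres : ResStmt) : NumStmt := by
  intro Q hQ w v hv D P φ₀ hP lab σ e Λ κ E C hκ hd χ hχ
  have hF := hP.2.2
  obtain ⟨hφ0, hφ⟩ := cuts_wt hF fun h => hP.2.1
    (MvPolynomial.rename_injective _ (Option.some_injective _) (h.trans (map_zero _).symm))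
  have hΛ : ∀ d ∈ comps Q v D, ∀ g, free g → Λ d (g - κ) = g - Λ d κ := fun d h g hg => by
    rw [map_sub, (hd d h).2.2.1.fix g hg]
  have hok : ∀ e' ∈ types Q v D, FixOK Q w v (fun i a => e' i a) (emb (Fold P)) φ₀ :=
    fun e' h => hfix Q w v _ _ _ (incr_of_mem h) hF
  constructor
  · refine ⟨∑ d ∈ comps Q v D, |C d + co 0 (Λ d κ)|, fun g hg hC => ?_⟩
    rw [hχ g hg]
    refine sum_eq_zero fun d h => (hd d h).2.2.2.2 _ ?_
    have h1 := single_le_sum (f := fun d => |C d + co 0 (Λ d κ)|) (fun _ _ => abs_nonneg _) h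
    have h2 := le_abs_self (C d + co 0 (Λ d κ))
    have h3 : co 0 g = ofLex g 0 := rfl
    rw [hΛ d h g hg, map_sub]
    omega
  let U : (Bas Q v → ℕ) → H38.K := fun d =>
    H38.mon (-Λ d κ) * (moving Q w v (fun i a => e d i a) * flagK (σ d) d)
  have hU : ∀ d, U d ∈ LF := fun d => mul_mem (mon_LF _) (mul_mem (moving_LF _ _ _ _) flagK_LF)
  let ψ : (Bas Q v → ℕ) → G → ℚ := fun d γ =>
    ∑ᶠ β, (U d).coeff β * chi Q w v (fun i a => e d i a) (emb (Fold P)) φ₀ (γ - β)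
  obtain ⟨L, hL, hLd⟩ := common (comps Q v D) (fun β => free β ∧ co 0 β ≠ 0)
    (fun d γ => (E d γ : ℚ)) ψ fun d h => by
      obtain ⟨h1, h2, h3, h4, h5⟩ := hd d h
      obtain ⟨L, g1, g2⟩ := hres Q w v _ _ φ₀ (hok _ h2.mem) hφ0 hF.2.2.1 _ _ (E d) (C d) (U d)
        (movL_ok false) h5 h4 (hU d) (by
          rw [movL_prod, movL_prod, mul_assoc, ← hch Q hQ w v hv D d _ _ _ _ κ h1 h2 h3 hκ,
            ← mul_assoc, ← mon_add, neg_add_cancel, mon_zero, one_mul])
      exact ⟨L, g1, funext fun g => (shl_map (Int.castAddHom ℚ) L (E d) g).trans (g2 g)⟩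
  have hV : ∀ γ ∈ Sall, ∑ d ∈ comps Q v D, ψ d (γ - Λ d κ) =
      vertexCoeff Q w v (emb (Fold P)) φ₀ D γ := by
    intro γ hγ
    obtain ⟨k, h1, h2⟩ := (((eventually_all_finset (comps Q v D)).mpr fun d h =>
      fix_sum (hok _ (hd d h).2.1.mem) hφ0 (hU d) (γ - Λ d κ)).and
      ((eventually_all_finset (types Q v D)).mpr fun e' h =>
        fix_sum (hok _ h) hφ0 (moving_LF Q w v fun i a => e' i a) γ)).exists
    have h3 := congrArg (fun f : H38.K => f.coeff (γ + k • (φ₀ + allX Q v)))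
      (hsym Q w v D σ e (fun d h => (hd d h).2.1) k)
    simp only [HahnSeries.coeff_sum, res_eq hφ hγ] at h3
    rw [vertexCoeff, sum_congr rfl h2, ← h3]
    refine sum_congr rfl fun d h => (h1 d h).trans ?_
    rw [mul_assoc, coeff_mon_mul]
    congr 1
    abel
  refine ⟨L, hL, fun g hg => ?_⟩
  set N := ∑ i, aExp Q w v i * D i with hN
  have hN' : N • tau ∈ Sall := Sall.zsmul_mem s_tau _
  obtain ⟨s, hs, hdep⟩ := shl_dep (A := ℚ) Sall L (fun β h => (hL β h).1) g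
  have hs' : ∀ γ ∈ s, γ ∈ Sall := fun γ h => by
    simpa using Sall.add_mem (hs γ h) (show g ∈ Sall from hg)
  have hG := ((hgeo Q hQ w v hv).2.2.2.2 _ _ hF D).2
  refine ((eventually_all_finset s).mpr fun γ h => hG γ (hs' γ h)).mono fun J hJ => ?_
  rw [← shl_coeff, ← hdep _ _ fun γ h => (congrArg ((-1 : ℚ) ^ N * ·)
    (hV _ (Sall.add_mem (hs' γ h) hN'))).trans (hJ γ h),
    shl_lin L _ _ fun γ => ∑ d ∈ comps Q v D, ψ d (γ - Λ d κ), shl_sum]
  simp only [shl_shift]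
  rw [← sum_congr rfl fun d h => congrFun (hLd d h) (g + N • tau - Λ d κ)]
  have h1 := hdep (fun γ => (-1 : ℚ) ^ N * (χ (γ + N • tau) : ℚ))
    (fun γ => (-1 : ℚ) ^ N * ∑ d ∈ comps Q v D, (E d (γ + N • tau - Λ d κ) : ℚ)) fun γ h => by
      have h2 : free (γ + N • tau) := Sall.add_mem (hs' γ h) hN'
      rw [hχ _ h2, Int.cast_sum, sum_congr rfl fun d h => by rw [hΛ d h _ h2]]
  rw [shl_lin L _ _ fun γ => (χ γ : ℚ),
    shl_lin L _ _ fun γ => ∑ d ∈ comps Q v D, (E d (γ - Λ d κ) : ℚ), shl_sum] at h1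
  rw [sum_congr rfl fun d _ => shl_shift L (fun γ => (E d γ : ℚ)) _ _] at h1
  rw [← h1]
  exact congrArg _ (shl_map (Int.castAddHom ℚ) L χ _).symm

end Pool.Agent.MP_8be872_ag.H23
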