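import Pool.Agent.MP_8be872_ag.H63.SpecA
import Pool.Agent.MP_8be872_ag.H63.LocA

/-! Module Pat: removing charts, and the filtration by the largest chart. -/

namespace Pool.Agent.MP_8be872_ag.H23

open Finset H38 H56 H63 MvPolynomial

theorem isCx_inf {M : Type} [AddCommGroup M] [Module ℂ M] {D : Module.End ℂ M}
    {Z : Bool → Submodule ℂ M} {B I : Submodule ℂ M} (h : IsCx D Z B) (hI : ∀ x ∈ I, D x ∈ I) :
    IsCx D (fun p => Z p ⊓ I) B :=
  ⟨fun p x hx => ⟨h.mapZ p x hx.1, hI x hx.2⟩, fun p x hx => h.mapB p x hx.1,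
    fun p x hx => h.sq p x hx.1⟩

variable {E O J Γ : Type} [Fintype E] [Fintype O] [Fintype J] [DecidableEq E] [DecidableEq O]
  [DecidableEq J] [AddCommGroup Γ] {Al : Gn E O J → Prop} {c : Gn E O J → Γ}
  {δ : Gn E O J → Op E O J} {ω : Op E O J} {f : J → MvPolynomial (E ⊕ J) ℂ}
  {x : Sp (E ⊕ J) (O ⊕ J)} {I : Submodule ℂ (Sp (E ⊕ J) (O ⊕ J))}

/-- Some `ε_j` with `j ∈ A` occurs. -/
def hasE (A : Finset J) (μ : Gn E O J → ℕ) : Prop := ∃ j ∈ A, μ (ev j) ≠ 0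

theorem sub_proj (P : (Gn E O J → ℕ) → Prop) (x : Sp (E ⊕ J) (O ⊕ J)) :
    x - proj P x = proj (fun μ => ¬ P μ) x := by
  have h1 := proj_eq_self (sub_proj_mem (P := P) x)
  have h2 : proj (fun μ => ¬ P μ) (proj P x) = 0 :=
    proj_eq_zero (mono_le (fun μ h => not_not.2 h) (proj_mem x))
  rw [map_sub, h2, sub_zero] at h1
  exact h1.symm

theorem mem_true (x : Sp (E ⊕ J) (O ⊕ J)) : x ∈ mono fun _ : Gn E O J → ℕ => True := by
  rw [mono_true]
  trivial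

theorem proj_not_rel (A : Finset J) (hx : x ∈ rel f ⊔ mono (hasE A)) :
    proj (fun μ => ¬ hasE A μ) x ∈ rel f := by
  obtain ⟨b, hb, n, hn, rfl⟩ := Submodule.mem_sup.1 hx
  have h2 : proj (fun μ => ¬ hasE A μ) n = 0 :=
    proj_eq_zero (mono_le (fun μ h => not_not.2 h) hn)
  rw [map_add, h2, add_zero]
  refine proj_rel (A := univ) (fun j _ m _ μ _ => ?_) ?_ hb
  · simp [hasE, ex]
  · exact mono_le (fun μ _ j _ => mem_univ j) (mem_true _)

theorem Dloc_hasE (h : Good Al c δ ω f) (A A' : Finset J) (hx : x ∈ mono (hasE A')) :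
    Dloc δ ω f A x ∈ mono (hasE A') := by
  classical
  let gr : Gn E O J → ℕ := fun g => if ∃ j ∈ A', g = ev j then 1 else 0
  have key : ∀ μ : Gn E O J → ℕ, 1 ≤ ws gr μ ↔ hasE A' μ := by
    intro μ
    rw [Nat.one_le_iff_ne_zero, ws, Ne, sum_eq_zero_iff]
    push Not
    constructor
    · rintro ⟨g, -, hg⟩
      by_cases e : ∃ j ∈ A', g = ev j
      · obtain ⟨j, hj, rfl⟩ := e
        exact ⟨j, hj, fun h0 => hg (by simp [h0])⟩
      · exact absurd (by simp only [gr, if_neg e, smul_zero]) hg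
    · rintro ⟨j, hj, h0⟩
      refine ⟨ev j, mem_univ _, ?_⟩
      simp only [gr, if_pos (⟨j, hj, rfl⟩ : ∃ i ∈ A', (ev j : Gn E O J) = ev i), smul_eq_mul,
        mul_one]
      exact h0
  refine mono_le (fun μ => (key μ).1) (h.Dloc_ge A gr (fun j => by simp [gr]) (fun g => ?_) 1
    (mono_le (fun μ => (key μ).2) hx))
  by_cases e : ∃ j ∈ A', g = ev j
  · obtain ⟨j, -, rfl⟩ := e
    rw [h.dz _ (h.alE j)]
    exact zero_mem _
  · exact words_le (fun μ _ => by simp only [gr, if_neg e, Nat.zero_le]) (h.dw g)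

theorem cech_ev (h : Good Al c δ ω f) {J₀ J₁ : Finset J} {μ : Gn E O J → ℕ}
    (hμ : cech Al J₀ J₁ μ) {j : J} (hj : μ (ev j) ≠ 0) : j ∈ J₀ ∪ J₁ := by
  rcases hμ.1 _ hj with h1 | ⟨i, h1, -⟩ | ⟨i, hi, h1⟩
  · exact absurd h1 (h.alE j)
  · cases h1
  · cases h1
    exact hi

omit [DecidableEq E] in
theorem Dloc_union {J₁ J₂ : Finset J} (hd : Disjoint J₁ J₂) (x : Sp (E ⊕ J) (O ⊕ J)) :
    Dloc δ ω f (J₁ ∪ J₂) x = Dloc δ ω f J₁ x + ∑ j ∈ J₂, gn (ev j) x := by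
  unfold Dloc
  rw [sum_union hd, ← add_assoc, LinearMap.add_apply, LinearMap.sum_apply]

theorem ses_rem (h : Good Al c δ ω f) (hI : InvOK δ ω f I) (γ : Γ) (J₀ J₁ J₂ : Finset J) :
    Ses (Dloc δ ω f (J₁ ∪ J₂)) (fun p => ZZ Al c J₀ (J₁ ∪ J₂) γ p ⊓ I)
      (fun p => (ZZ Al c J₀ (J₁ ∪ J₂) γ p ⊓ mono (hasE J₂)) ⊓ I) (rel f)
      (rel f ⊔ mono (hasE J₂)) := by
  refine ⟨isCx_inf (h.isCx subset_union_right γ) (hI.dd _), fun p x hx => ⟨hx.1.1, hx.2⟩,
    fun p x hx => ⟨⟨h.Dloc_ZZ subset_union_right hx.1.1, Dloc_hasE h _ _ hx.1.2⟩, hI.dd _ x hx.2⟩,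
    fun p x hx => ⟨fun hb => ?_, ?_⟩⟩
  · refine ⟨proj (hasE J₂) x, ⟨⟨proj_mem_of hx.1, proj_mem x⟩,
      hI.pr (fun v => ∃ j ∈ J₂, v j ≠ 0) x hx.2⟩, ?_⟩
    rw [sub_proj]
    exact proj_not_rel J₂ hb
  · rintro ⟨y, hy, hxy⟩
    exact TL.of_sub (Submodule.mem_sup_left hxy) (Submodule.mem_sup_right hy.1.2)

theorem quo_rem (h : Good Al c δ ω f) (hI : InvOK δ ω f I) (γ : Γ) {J₀ J₁ J₂ : Finset J}
    (hd : Disjoint J₂ (J₀ ∪ J₁)) (n : ℤ) :
    HasChi (Dloc δ ω f J₁) (fun p => ZZ Al c J₀ J₁ γ p ⊓ I) (rel f) n ↔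
      HasChi (Dloc δ ω f (J₁ ∪ J₂)) (fun p => ZZ Al c J₀ (J₁ ∪ J₂) γ p ⊓ I)
        (rel f ⊔ mono (hasE J₂)) n := by
  refine (cx_congr (ses_rem h hI γ J₀ J₁ J₂).cxQ
    (isCx_inf (h.isCx subset_union_right γ) (hI.dd _)) (fun p => inf_le_inf_right _ ?_)
    (fun p x hx => ?_) (fun p x hx => ⟨Submodule.mem_sup_left, fun hb => ?_⟩)
    fun p x _ => ?_).1 n
  · refine mono_le fun μ hμ => ⟨⟨fun g hg => ?_, hμ.1.2⟩, hμ.2⟩
    rcases hμ.1.1 g hg with h1 | h1 | ⟨j, hj, h1⟩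
    · exact Or.inl h1
    · exact Or.inr (Or.inl h1)
    · exact Or.inr (Or.inr ⟨j, union_subset_union_right subset_union_left hj, h1⟩)
  · refine ⟨proj (fun μ => ¬ hasE J₂ μ) x, ⟨?_,
      hI.pr (fun v => ¬ ∃ j ∈ J₂, v j ≠ 0) x hx.2⟩, ?_⟩
    · have h1 : proj (fun μ => ¬ hasE J₂ μ) x ∈ ZZ Al c J₀ (J₁ ∪ J₂) γ p := proj_mem_of hx.1
      have h2 := Submodule.mem_inf.2 ⟨h1, proj_mem (P := fun μ => ¬ hasE J₂ μ) x⟩
      rw [ZZ, ← mono_and] at h2
      refine mono_le (fun μ hμ => ⟨⟨fun g hg => ?_, hμ.1.1.2⟩, hμ.1.2⟩) h2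
      rcases hμ.1.1.1 g hg with h1 | h1 | ⟨j, hj, h1⟩
      · exact Or.inl h1
      · exact Or.inr (Or.inl h1)
      · refine Or.inr (Or.inr ⟨j, ?_, h1⟩)
        rw [← union_assoc, mem_union] at hj
        exact hj.resolve_right fun h3 => hμ.2 ⟨j, h3, h1 ▸ hg⟩
    · rw [← sub_proj, sub_sub_cancel]
      exact Submodule.mem_sup_right (proj_mem x)
  · have h1 : x ∈ mono fun μ => ¬ hasE J₂ μ :=
      mono_le (fun μ hμ ⟨j, hj, h0⟩ => disjoint_left.1 hd hj (cech_ev h hμ.1 h0)) hx.1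
    rw [← proj_eq_self h1]
    exact proj_not_rel J₂ hb
  · rw [Dloc_union (hd.mono_right subset_union_right).symm, sub_add_cancel_left]
    refine Submodule.mem_sup_right (neg_mem (sum_mem fun j hj => ?_))
    exact gn_mem (P := fun _ => True) _ (mem_true _)
      fun μ _ => ⟨j, hj, by simp⟩

theorem sub_top (h : Good Al c δ ω f) (hI : InvOK δ ω f I) (γ : Γ) {s : Finset J} {a : J}
    (ha : a ∉ s) (n : ℤ) :
    HasChi (Dloc δ ω f s) (fun p => ZZ Al c {a} s γ p ⊓ I) (rel f) n ↔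
      HasChi (Dloc δ ω f (s ∪ {a})) (fun p => (ZZ Al c ∅ (s ∪ {a}) γ p ⊓ mono (hasE {a})) ⊓ I)
        (rel f) n := by
  have e : ∀ p, ZZ Al c ∅ (s ∪ {a}) γ p ⊓ mono (hasE {a}) = ZZ Al c {a} s γ p := by
    intro p
    unfold ZZ
    rw [← mono_and]
    congr 1
    funext μ
    simp only [cech, hasE, empty_union, union_comm s, mem_singleton, exists_eq_left,
      notMem_empty, false_imp_iff, implies_true, true_and, forall_eq, eq_iff_iff]
    tauto
  refine (cx_congr (ses_rem h hI γ ∅ s {a}).cxS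
    (isCx_inf (h.isCx subset_union_right γ) (hI.dd _)) (fun p => by rw [e])
    (fun p x hx => ⟨x, by rwa [e] at hx, by simp⟩) (fun _ _ _ => Iff.rfl) fun p x hx => ?_).1 n
  rw [Dloc_union (disjoint_singleton_right.2 ha), sub_add_cancel_left, sum_singleton]
  have h1 : gn (ev a) x ∈ mono fun μ : Gn E O J → ℕ => 2 ≤ μ (ev a) :=
    gn_mem _ hx.1 fun μ hμ => by
      have := hμ.1.2.1 a (mem_singleton_self a)
      simp only [Pi.add_apply, Pi.single_eq_same]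
      omega
  have h2 : gn (ev a) x ∈ mono fun _ : Gn E O J → ℕ => False :=
    mono_le_odd (fun μ h3 h4 => absurd (h4.trans (h3 (.inr a))) (by omega)) h1
  rw [mono_false, Submodule.mem_bot] at h2
  rw [h2, neg_zero]
  exact zero_mem _

theorem pat : PatStmt := by
  intro E O J Γ _ _ _ _ _ _ _ Al c δ ω f h I hI γ
  refine ⟨fun J₀ J₁ J₂ hd hA n => ?_, fun J₁ rk n => ?_⟩
  · have ses := ses_rem h hI γ J₀ J₁ J₂
    rw [quo_rem h hI γ hd]
    exact ⟨fun hc => by simpa using ses.chi_quo hc hA.hasChi,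
      fun hc => by simpa using ses.chi_mid hA.hasChi hc⟩
  · induction J₁ using Finset.induction_on_max_value rk with
    | empty =>
      intro _ _
      refine (acy_of_le fun p => inf_le_left.trans (le_trans ?_ bot_le)).hasChi
      rw [← mono_false]
      exact mono_le fun μ hμ => by
        obtain ⟨j, hj⟩ := hμ.1.2.2
        simpa using cech_ev h hμ.1 hj
    | insert a s ha hmax ih =>
      intro hinj hn
      have e1 : (insert a s).filter (fun i => rk i < rk a) = s := by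
        rw [filter_insert, if_neg (lt_irrefl _)]
        refine filter_true_of_mem fun i hi => (hmax i hi).lt_of_ne fun e => ha ?_
        rw [← hinj (by simp [hi]) (by simp) e]
        exact hi
      have h1 := hn a (mem_insert_self a s)
      rw [e1, sub_top h hI γ ha] at h1
      have h2 := ih (hinj.mono (by simp)) fun j hj => by
        have := hn j (mem_insert_of_mem hj)
        rwa [filter_insert, if_neg (not_lt.2 (hmax j hj))] at this
      rw [quo_rem h hI γ (J₂ := {a}) (by simpa using ha)] at h2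
      have e2 : insert a s = s ∪ {a} := by rw [union_comm]; rfl
      rw [sum_insert ha, e2]
      exact (ses_rem h hI γ ∅ s {a}).chi_mid h1 h2

end Pool.Agent.MP_8be872_ag.H23
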